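import Pool.Agent.Results.MP_940d9d_mp.PointSpectrum
import Pool.Agent.Y471.PS.Lim

/-!
# Continuum many rotation numbers for which a pattern Sturmian potential has an eigenvector
-/

set_option autoImplicit false

namespace Pool.Agent.Results.MP_940d9d_mp.ContinuumPointSpectrum

open MeasureTheory
open Pool.Agent.Results.MP_940d9d_mp.PointSpectrum
open Pool.Agent.Helper434.PSMain Pool.Agent.Helper434.PSHilb

/-- One construction: from the levels to the operator. -/
theorem one {lam : ℝ} {p q s t kap : ℕ → ℤ} {x : ℤ → ℤ} {E : ℝ} {φ : EE}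
    (hp0 : p 0 = 0) (hq0 : q 0 = 1) (hs0 : s 0 = 0) (ht0 : t 0 = 1) (hk0 : kap 0 = 0)
    (hdet : ∀ n, p (n + 1) * q n - p n * q (n + 1) = 1)
    (hgr : ∀ n, 4 * (q n + |s n| + |t n| + n + 10) < q (n + 1))
    (hs : ∀ n, s (n + 1) = t n) (ht : ∀ n, t (n + 1) = s n + q (n + 1) - q n)
    (hk : ∀ n, kap (n + 1) = 1 - kap n) (hx01 : ∀ j, x j = 0 ∨ x j = 1)
    (hx : ∀ j : ℤ, ∀ n : ℕ, |j| ≤ n → xseq (p n) (q n) (s n) (t n) (kap n) j = x j)
    (hφ0 : φ ≠ 0) (heig : ∀ j, φ (j + 1) + φ (j - 1) + lam * (x j : ℝ) * φ j = E * φ j) :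
    ∃ α : ℝ, Irrational α ∧ (∀ n, 0 < q n * α - p n) ∧
      (∀ n, q (n + 1) * α - p (n + 1) < q n * α - p n) ∧
      ∃ x : ℤ → Fin 2, Recurrent x ∧ PatternSturmian x ∧
      (∃ β θ : ℝ, 0 < β ∧ β < 1 ∧
        ∀ j : ℤ, x j = 1 ↔ ∃ k : ℤ, 0 < j * α + θ - k ∧ j * α + θ - k ≤ β) ∧
      ∃ H : L2Z →L[ℂ] L2Z, IsSchrodinger lam x H ∧ IsSelfAdjoint H ∧
        ∃ (E : ℝ) (ψ : L2Z), ψ ≠ 0 ∧ H ψ = (E : ℂ) • ψ ∧
          IsSpectralMeasure H ψ (ENNReal.ofReal (‖ψ‖ ^ 2) • Measure.dirac E) ∧
          ∀ μ : Measure ℝ, IsSpectralMeasure H ψ μ →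
            μ = ENNReal.ofReal (‖ψ‖ ^ 2) • Measure.dirac E := by
  obtain ⟨α, β, θ, hirr, hβ0, hβ1, hcode, hpos, hanti, hsmall⟩ :=
    Pool.Agent.Helper434.PSCode.coding hp0 hq0 hs0 ht0 hk0 hdet hgr hs ht hk hx
  -- letters
  set y : ℤ → Fin 2 := fun j => if x j = 1 then 1 else 0 with hy
  have hyx : ∀ j : ℤ, ((y j : ℕ) : ℤ) = x j := by
    intro j
    simp only [hy]
    rcases hx01 j with h | h <;> rw [h] <;> simp
  have hycode : ∀ j : ℤ, ((y j : ℕ) : ℤ) = ⌈j * α + θ⌉ - ⌈j * α + θ - β⌉ := fun j => by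
    rw [hyx, hcode]
  have hqpos : ∀ n, 0 < q n := Pool.Agent.Helper434.PSRot.q_pos hq0 (fun n => by
    have h1 := hgr n
    have h2 := abs_nonneg (s n)
    have h3 := abs_nonneg (t n)
    linarith)
  have hqge : ∀ n : ℕ, (n : ℤ) + 1 ≤ q n := Pool.Agent.Helper434.PSRot.q_ge hq0 (fun n => by
    have h1 := hgr n
    have h2 := abs_nonneg (s n)
    have h3 := abs_nonneg (t n)
    linarith)
  have hq4 : ∀ n, 4 * q n < q (n + 1) := fun n => by
    have h1 := hgr n
    have h2 := abs_nonneg (s n)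
    have h3 := abs_nonneg (t n)
    linarith
  have hapx : ∀ δ : ℝ, 0 < δ → ∃ Q P : ℤ, 0 < Q ∧ 0 < Q * α - P ∧ Q * α - P < δ := by
    intro δ hδ
    obtain ⟨N, hN⟩ := hsmall δ hδ
    exact ⟨q N, p N, hqpos N, hpos N, hN N le_rfl⟩
  refine ⟨α, hirr, hpos, hanti, y, ?_, ?_, ⟨β, θ, hβ0, hβ1, ?_⟩, ?_⟩
  · -- recurrent
    intro a n N
    obtain ⟨δ, hδ, hrec⟩ := Pool.Agent.Helper434.PSPattern.recur hycode a n
    obtain ⟨M, hM⟩ := hsmall δ hδ
    set k := max M (|N| + |a|).toNat with hk'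
    have hkM : M ≤ k := le_max_left _ _
    have hkN : (|N| + |a|).toNat ≤ k := le_max_right _ _
    have hkN' : |N| + |a| ≤ (k : ℤ) := by
      have h1 : |N| + |a| ≤ ((|N| + |a|).toNat : ℤ) := Int.self_le_toNat _
      have h2 : ((|N| + |a|).toNat : ℤ) ≤ (k : ℤ) := by exact_mod_cast hkN
      exact h1.trans h2
    have h1 := hM k hkM
    have h2 := hpos k
    have h3 := hanti k
    have h4 := hpos (k + 1)
    have h5 := hqge k
    have h6 := hq4 k
    have h7 := le_abs_self N
    have h8 := neg_abs_le N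
    have h9 := le_abs_self a
    have h10 := neg_abs_le a
    constructor
    · refine ⟨a + (q (k + 1) - q k), by linarith, fun i hi => ?_⟩
      exact hrec (q (k + 1) - q k) (p (k + 1) - p k) (by push_cast; linarith)
        (by push_cast; linarith) i hi
    · refine ⟨a + (-q k), by linarith, fun i hi => ?_⟩
      exact hrec (-q k) (-p k) (by push_cast; linarith) (by push_cast; linarith) i hi
  · -- pattern Sturmian
    intro n hn
    unfold patternComplexity
    apply le_antisymm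
    · apply iSup_le
      intro τ
      exact Pool.Agent.Helper434.PSPattern.upper hycode hn τ.1
    · obtain ⟨τ, h1, h2, h3⟩ := Pool.Agent.Helper434.PSPattern.lower hβ0 hβ1 hycode hn hapx
      exact h3.trans (le_iSup (fun τ : {τ : Fin n → ℤ // StrictMono τ ∧
        ∀ h : 0 < n, τ ⟨0, h⟩ = 0} => (patterns y τ.1).encard) ⟨τ, h1, h2⟩)
  · -- the coding
    intro j
    have h0 := hycode j
    set z := (j : ℝ) * α + θ with hz
    have h1 := Int.le_ceil z
    have h2 := Int.ceil_lt_add_one z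
    constructor
    · intro h
      rw [h] at h0
      have h3 : ⌈z - β⌉ = ⌈z⌉ - 1 := by
        have : (((1 : Fin 2) : ℕ) : ℤ) = 1 := rfl
        rw [this] at h0
        linarith
      refine ⟨⌈z⌉ - 1, ?_, ?_⟩
      · push_cast; linarith
      · have h4 := Int.le_ceil (z - β)
        rw [h3] at h4
        push_cast at h4 ⊢
        linarith
    · rintro ⟨k, hk1, hk2⟩
      have h3 : ⌈z⌉ = k + 1 := by
        rw [Int.ceil_eq_iff]; push_cast; constructor <;> linarith
      have h4 : ⌈z - β⌉ = k := by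
        rw [Int.ceil_eq_iff]; constructor <;> linarith
      rw [h3, h4] at h0
      have h5 : ((y j : ℕ) : ℤ) = 1 := by rw [h0]; ring
      ext
      exact_mod_cast h5
  · -- the operator and the eigenvector
    obtain ⟨H, hH, hsa⟩ := Pool.Agent.Helper434.PSCplx.exists_H
      (fun m => lam * ((y m : ℕ) : ℝ)) (C := |lam|) (fun m => by
        rw [abs_mul]
        have h1 : |(((y m : ℕ) : ℝ))| ≤ 1 := by
          simp only [hy]
          split_ifs <;> simp
        have h2 := abs_nonneg lam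
        nlinarith)
    refine ⟨H, ?_, hsa, E, ?_⟩
    · intro ψ m
      rw [hH]
      push_cast
      rfl
    have hmem : Memℓp (fun j : ℤ => ((φ j : ℝ) : ℂ)) 2 := by
      apply memℓp_gen
      have h1 := (lp.memℓp φ).summable (by norm_num)
      refine h1.congr fun j => ?_
      rw [Complex.norm_real]
    set ψ : L2Z := ⟨fun j : ℤ => ((φ j : ℝ) : ℂ), hmem⟩ with hψ
    have hψj : ∀ j, ψ j = ((φ j : ℝ) : ℂ) := fun j => rfl
    have hψ0 : ψ ≠ 0 := by
      intro h
      apply hφ0
      ext j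
      have h1 : ψ j = 0 := by rw [h]; rfl
      rw [hψj] at h1
      have h2 : φ j = 0 := Complex.ofReal_eq_zero.mp h1
      exact h2
    have hHψ : H ψ = (E : ℂ) • ψ := by
      ext m
      rw [hH, lp.coeFn_smul, Pi.smul_apply, smul_eq_mul, hψj, hψj, hψj]
      have h1 := heig m
      have h2 : ((y m : ℕ) : ℝ) = (x m : ℝ) := by exact_mod_cast hyx m
      rw [← h2] at h1
      have h3 := congrArg (fun r : ℝ => (r : ℂ)) h1
      push_cast at h3 ⊢
      exact h3
    have hspec : IsSpectralMeasure H ψ (ENNReal.ofReal (‖ψ‖ ^ 2) • Measure.dirac E) := by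
      refine ⟨?_, fun f hf => ?_⟩
      · exact Measure.smul_finite _ ENNReal.ofReal_ne_top
      · rw [Pool.Agent.Helper434.PSCplx.inner_cfc hsa hψ0 hHψ f hf, integral_smul_measure,
          integral_dirac, ENNReal.toReal_ofReal (sq_nonneg _), smul_eq_mul]
    refine ⟨ψ, hψ0, hHψ, hspec, ?_⟩
    intro μ hμ
    have := hμ.1
    have := hspec.1
    apply ext_of_forall_integral_eq_of_IsFiniteMeasure
    intro f
    have h1 := hμ.2 f f.continuous
    have h2 := hspec.2 f f.continuous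
    rw [h1] at h2
    exact_mod_cast h2


/-- **Continuum many potentials with an eigenvector, for every coupling.** Let `lam ≠ 0` be real
and let `f` be any positive function on the natural numbers. There is an injective map `F` from
the set of all binary sequences into the irrational numbers of `(0, 1/2)` such that for each
`α = F b`
* `|q α - p| < f q` for infinitely many `q` (so `α` is as well approximable as one wishes), and
* there is a recurrent pattern Sturmian sequence `x`, the coding of the rotation by `α` by an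
  interval, for which the operator `H` has an eigenvector `ψ` in `ℓ²(ℤ)`, whose spectral measure
  is the point mass `‖ψ‖² δ_E`. -/
theorem result : ∀ lam : ℝ, lam ≠ 0 → ∀ f : ℕ → ℝ, (∀ n, 0 < f n) →
    ∃ F : (ℕ → Bool) → ℝ, Function.Injective F ∧ ∀ b : ℕ → Bool,
      0 < F b ∧ F b < 1 / 2 ∧ Irrational (F b) ∧
      (∀ N : ℕ, ∃ q : ℕ, N < q ∧ ∃ p : ℤ, |q * F b - p| < f q) ∧
      ∃ x : ℤ → Fin 2, Recurrent x ∧ PatternSturmian x ∧
        (∃ β θ : ℝ, 0 < β ∧ β < 1 ∧
          ∀ j : ℤ, x j = 1 ↔ ∃ k : ℤ, 0 < j * F b + θ - k ∧ j * F b + θ - k ≤ β) ∧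
        ∃ H : L2Z →L[ℂ] L2Z, IsSchrodinger lam x H ∧ IsSelfAdjoint H ∧
          ∃ (E : ℝ) (ψ : L2Z), ψ ≠ 0 ∧ H ψ = (E : ℂ) • ψ ∧
            IsSpectralMeasure H ψ (ENNReal.ofReal (‖ψ‖ ^ 2) • Measure.dirac E) ∧
            ∀ μ : Measure ℝ, IsSpectralMeasure H ψ μ →
              μ = ENNReal.ofReal (‖ψ‖ ^ 2) • Measure.dirac E := by
  intro lam hlam f hf
  obtain ⟨σ, hcongr, hdiff, hσ⟩ := Pool.Agent.Y471.PS.tree_exists hlam
    (fun z => ⌈1 / f z.toNat⌉ + z)
  have hex : ∀ b, ∃ α : ℝ, Irrational α ∧ (∀ n, 0 < (σ b n).q * α - (σ b n).p) ∧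
      (∀ n, (σ b (n + 1)).q * α - (σ b (n + 1)).p < (σ b n).q * α - (σ b n).p) ∧
      ∃ x : ℤ → Fin 2, Recurrent x ∧ PatternSturmian x ∧
      (∃ β θ : ℝ, 0 < β ∧ β < 1 ∧
        ∀ j : ℤ, x j = 1 ↔ ∃ k : ℤ, 0 < j * α + θ - k ∧ j * α + θ - k ≤ β) ∧
      ∃ H : L2Z →L[ℂ] L2Z, IsSchrodinger lam x H ∧ IsSelfAdjoint H ∧
        ∃ (E : ℝ) (ψ : L2Z), ψ ≠ 0 ∧ H ψ = (E : ℂ) • ψ ∧
          IsSpectralMeasure H ψ (ENNReal.ofReal (‖ψ‖ ^ 2) • Measure.dirac E) ∧
          ∀ μ : Measure ℝ, IsSpectralMeasure H ψ μ →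
            μ = ENNReal.ofReal (‖ψ‖ ^ 2) • Measure.dirac E := by
    intro b
    obtain ⟨hp0, hq0, hs0, ht0, hk0, hdet, hgr, hs, ht, hk, -, x, E, φ, hx01, hx, hφ0, heig⟩ :=
      hσ b
    exact one (p := fun n => (σ b n).p) (q := fun n => (σ b n).q) (s := fun n => (σ b n).s)
      (t := fun n => (σ b n).t) (kap := fun n => (σ b n).kap) hp0 hq0 hs0 ht0 hk0 hdet hgr hs ht
      hk hx01 hx hφ0 heig
  choose F hirr hpos hanti hrest using hex
  have hqpos : ∀ b n, 0 < (σ b n).q := fun b n => (σ b n).hq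
  have hgr : ∀ b n, 4 * ((σ b n).q + |(σ b n).s| + |(σ b n).t| + n + 10) < (σ b (n + 1)).q :=
    fun b => (hσ b).2.2.2.2.2.2.1
  have hdet : ∀ b n, (σ b (n + 1)).p * (σ b n).q - (σ b n).p * (σ b (n + 1)).q = 1 :=
    fun b => (hσ b).2.2.2.2.2.1
  have hG : ∀ b n, ⌈1 / f (σ b n).q.toNat⌉ + (σ b n).q < (σ b (n + 1)).q :=
    fun b => (hσ b).2.2.2.2.2.2.2.2.2.2.1
  have hgr' : ∀ b n, 4 * ((σ b n).q + n + 10) < (σ b (n + 1)).q := fun b n => by
    have h1 := hgr b n
    have h2 := abs_nonneg (σ b n).s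
    have h3 := abs_nonneg (σ b n).t
    linarith
  -- identity for the distances
  have hid : ∀ b n, ((σ b (n + 1)).q : ℝ) * ((σ b n).q * F b - (σ b n).p) =
      1 + (σ b n).q * ((σ b (n + 1)).q * F b - (σ b (n + 1)).p) := by
    intro b n
    have h := hdet b n
    have h' : ((σ b (n + 1)).p : ℝ) * (σ b n).q - (σ b n).p * (σ b (n + 1)).q = 1 := by
      exact_mod_cast h
    linear_combination h'
  have hlow : ∀ b n, 1 < ((σ b (n + 1)).q : ℝ) * ((σ b n).q * F b - (σ b n).p) := by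
    intro b n
    rw [hid]
    have h1 := hpos b (n + 1)
    have h2 : (0:ℝ) < (σ b n).q := by exact_mod_cast hqpos b n
    have := mul_pos h2 h1
    linarith
  have hupp : ∀ b n, (((σ b (n + 1)).q : ℝ) - (σ b n).q) * ((σ b n).q * F b - (σ b n).p) < 1 := by
    intro b n
    have h0 := hid b n
    have h1 := hanti b n
    have h2 : (0:ℝ) < (σ b n).q := by exact_mod_cast hqpos b n
    have := mul_lt_mul_of_pos_left h1 h2
    linarith
  refine ⟨F, ?_, fun b => ⟨?_, ?_, hirr b, ?_, hrest b⟩⟩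
  · -- injectivity
    have key : ∀ b b' : ℕ → Bool, ∀ n, (∀ k, k < n → b k = b' k) → b n = false → b' n = true →
        F b ≠ F b' := by
      intro b b' n h h0 h1 heq
      have hs := hcongr b b' n h
      have hd := hdiff b b' n h h0 h1
      have l := hlow b' n
      have u := hupp b n
      rw [heq, hs] at u
      have hd' : 2 * ((σ b (n + 1)).q : ℝ) < (σ b' (n + 1)).q := by exact_mod_cast hd
      have hg1 := hgr' b n
      rw [hs] at hg1
      have hg2 : 4 * (((σ b' n).q : ℝ) + n + 10) < (σ b (n + 1)).q := by exact_mod_cast hg1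
      have hq1 : (0:ℝ) < (σ b' n).q := by exact_mod_cast hqpos b' n
      have hn : (0:ℝ) ≤ n := Nat.cast_nonneg n
      -- from below for `b`
      have l2 := hlow b n
      have u2 := hupp b' n
      rw [heq, hs] at l2
      set δ := ((σ b' n).q : ℝ) * F b' - (σ b' n).p with hδ
      have hδ0 : 0 < δ := hpos b' n
      -- `(q' - q) δ < 1 < q_b δ` while `q' - q > q_b`
      have : ((σ b (n + 1)).q : ℝ) < (σ b' (n + 1)).q - (σ b' n).q := by linarith
      have := mul_lt_mul_of_pos_right this hδ0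
      linarith
    intro b b' hbb
    by_contra hne
    have hex : ∃ n, b n ≠ b' n := by
      by_contra hcon
      push Not at hcon
      exact hne (funext hcon)
    classical
    set n := Nat.find hex with hn
    have h1 : b n ≠ b' n := Nat.find_spec hex
    have h2 : ∀ k, k < n → b k = b' k := fun k hk => by
      by_contra hc
      exact Nat.find_min hex hk hc
    cases hb : b n with
    | true =>
      cases hb' : b' n with
      | true => exact h1 (by rw [hb, hb'])
      | false => exact key b' b n (fun k hk => (h2 k hk).symm) hb' hb hbb.symm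
    | false =>
      cases hb' : b' n with
      | true => exact key b b' n h2 hb hb' hbb
      | false => exact h1 (by rw [hb, hb'])
  · have h := hpos b 0
    rw [(hσ b).1, (hσ b).2.1] at h
    simpa using h
  · have h := hupp b 0
    rw [(hσ b).1, (hσ b).2.1] at h
    have hg := hgr' b 0
    rw [(hσ b).2.1] at hg
    have hg' : (44:ℝ) < (σ b (0 + 1)).q := by
      have : (44:ℤ) < (σ b (0 + 1)).q := by push_cast at hg; omega
      exact_mod_cast this
    have hF : 0 < F b := by
      have h := hpos b 0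
      rw [(hσ b).1, (hσ b).2.1] at h
      simpa using h
    push_cast at h
    by_contra hcon
    rw [not_lt] at hcon
    nlinarith
  · intro N
    have hge : ∀ n : ℕ, (n : ℤ) < (σ b n).q := by
      intro n
      induction n with
      | zero => exact_mod_cast hqpos b 0
      | succ n ih =>
        have := hgr' b n
        push_cast
        omega
    refine ⟨(σ b N).q.toNat, ?_, (σ b N).p, ?_⟩
    · have := hge N
      omega
    · have hc : (((σ b N).q.toNat : ℕ) : ℝ) = (σ b N).q := by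
        have : (((σ b N).q.toNat : ℕ) : ℤ) = (σ b N).q := Int.toNat_of_nonneg (hqpos b N).le
        exact_mod_cast this
      have hfp := hf (σ b N).q.toNat
      rw [hc, abs_of_pos (hpos b N)]
      have hu := hupp b N
      have hg := hG b N
      have hg' : ((⌈1 / f (σ b N).q.toNat⌉ : ℤ) : ℝ) + (σ b N).q < (σ b (N + 1)).q := by
        exact_mod_cast hg
      have hce := Int.le_ceil (1 / f (σ b N).q.toNat)
      have hD : 1 / f (σ b N).q.toNat < ((σ b (N + 1)).q : ℝ) - (σ b N).q := by linarith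
      have hδ := hpos b N
      have h1 := mul_lt_mul_of_pos_right hD hδ
      have h2 : 1 / f (σ b N).q.toNat * ((σ b N).q * F b - (σ b N).p) < 1 := h1.trans hu
      rw [one_div, inv_mul_lt_iff₀ hfp, mul_one] at h2
      exact h2

end Pool.Agent.Results.MP_940d9d_mp.ContinuumPointSpectrum
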